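import Pool.Agent.H27.ZF.TA

/-!
Board zf (MP_52e316_nt), part of row BD: the derivative of a normalised Dirichlet polynomial over a block.
-/

set_option autoImplicit false

namespace Pool.Agent.H57.ZF

open Pool.Agent.H27.ZF

/-- the Dirichlet polynomial over the block, with the factor `2 ^ (r (s - 1/2))` -/
noncomputable def Gd (lam b : ℕ → ℂ) (r : ℕ) (s : ℂ) : ℂ :=
  (2 : ℂ) ^ ((r : ℂ) * (s - 1 / 2)) * Pool.Agent.H27.ZF.DB lam b r s

lemma log_block (r n : ℕ) (hn : n ∈ Bk r) :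
    0 ≤ (r : ℝ) * Real.log 2 - Real.log n ∧ (r : ℝ) * Real.log 2 - Real.log n ≤ 1 := by
  unfold Bk at hn
  rw [Finset.mem_Ioc] at hn
  obtain ⟨h1, h2⟩ := hn
  have hn0 : (0 : ℝ) < n := by
    have : 0 < n := by omega
    exact_mod_cast this
  have h2' : (n : ℝ) ≤ 2 ^ r := by exact_mod_cast h2
  have e : (r : ℝ) * Real.log 2 = Real.log ((2 : ℝ) ^ r) := by
    rw [Real.log_pow]
  have h3 : (2 : ℝ) ^ r < 2 * n := by
    have : 2 ^ r < 2 * n := by omega
    exact_mod_cast this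
  rw [e]
  constructor
  · have := Real.log_le_log hn0 h2'
    linarith
  · have h4 : Real.log ((2 : ℝ) ^ r) ≤ Real.log (2 * n) :=
      Real.log_le_log (by positivity) h3.le
    rw [Real.log_mul two_ne_zero hn0.ne'] at h4
    have := Real.log_two_lt_d9
    linarith

theorem dbd (lam b : ℕ → ℂ) (r : ℕ) (hb : ∀ n, ‖b n‖ ≤ 1) : ∃ b1 : ℕ → ℂ, (∀ n, ‖b1 n‖ ≤ 1) ∧
    ∀ s : ℂ, HasDerivAt (Gd lam b r) (Gd lam b1 r s) s := by
  classical
  refine ⟨fun n => if n ∈ Bk r then b n * (((r : ℝ) * Real.log 2 - Real.log n : ℝ) : ℂ) else 0,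
    fun n => ?_, fun s => ?_⟩
  · simp only
    split_ifs with h
    · obtain ⟨h1, h2⟩ := log_block r n h
      rw [norm_mul, Complex.norm_real, Real.norm_eq_abs, abs_of_nonneg h1]
      calc ‖b n‖ * ((r : ℝ) * Real.log 2 - Real.log n) ≤ 1 * 1 :=
            mul_le_mul (hb n) h2 h1 zero_le_one
        _ = 1 := one_mul 1
    · simp
  · have key : ∀ n ∈ Bk r, HasDerivAt (fun s : ℂ => (2 : ℂ) ^ ((r : ℂ) * (s - 1 / 2)) *
        (b n * lam n * (n : ℂ) ^ (-s))) ((2 : ℂ) ^ ((r : ℂ) * (s - 1 / 2)) *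
        (b n * (((r : ℝ) * Real.log 2 - Real.log n : ℝ) : ℂ) * lam n * (n : ℂ) ^ (-s))) s := by
      intro n hn
      have hn0 : n ≠ 0 := by
        unfold Bk at hn
        rw [Finset.mem_Ioc] at hn
        omega
      have hnc : (n : ℂ) ≠ 0 := by exact_mod_cast hn0
      have h1 : HasDerivAt (fun s : ℂ => (r : ℂ) * (s - 1 / 2)) (r : ℂ) s := by
        simpa using ((hasDerivAt_id s).sub_const (1 / 2 : ℂ)).const_mul (r : ℂ)
      have h2 : HasDerivAt (fun s : ℂ => (2 : ℂ) ^ ((r : ℂ) * (s - 1 / 2)))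
          ((2 : ℂ) ^ ((r : ℂ) * (s - 1 / 2)) * Complex.log 2 * r) s :=
        h1.const_cpow (Or.inl two_ne_zero)
      have h3 : HasDerivAt (fun s : ℂ => (n : ℂ) ^ (-s))
          ((n : ℂ) ^ (-s) * Complex.log n * (-1)) s :=
        (hasDerivAt_neg s).const_cpow (Or.inl hnc)
      have h4 := h2.mul (h3.const_mul (b n * lam n))
      refine h4.congr_deriv ?_
      have e1 : Complex.log 2 = ((Real.log 2 : ℝ) : ℂ) := by
        rw [Complex.ofReal_log (by norm_num)]
        norm_num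
      have e2 : Complex.log (n : ℂ) = ((Real.log n : ℝ) : ℂ) := by
        rw [Complex.ofReal_log (by positivity)]
        norm_num
      rw [e1, e2]
      push_cast
      ring
    have h5 := HasDerivAt.fun_sum key
    have e3 : (fun s : ℂ => ∑ n ∈ Bk r, (2 : ℂ) ^ ((r : ℂ) * (s - 1 / 2)) *
        (b n * lam n * (n : ℂ) ^ (-s))) = Gd lam b r := by
      funext s
      unfold Gd DB
      rw [Finset.mul_sum]
    rw [e3] at h5
    refine h5.congr_deriv ?_
    unfold Gd DB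
    rw [Finset.mul_sum]
    refine Finset.sum_congr rfl fun n hn => ?_
    simp only [if_pos hn]

end Pool.Agent.H57.ZF
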