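import Pool.Agent.H27.ZF.TA

/-!
Board zf (MP_52e316_nt), row NZR: no zeros, from the product of the inverses of the local factors.
-/

set_option autoImplicit false

namespace Pool.Agent.H57.ZF

open Pool.Agent.H27.ZF

lemma Sq_mono {lam : ℕ → ℂ} {Q A B : ℝ} (h : Sq lam Q A) (hAB : A ≤ B) : Sq lam Q B := by
  intro r hr
  refine (h r hr).trans ?_
  have : (0 : ℝ) ≤ 2 ^ r := by positivity
  exact mul_le_mul_of_nonneg_right hAB this

lemma Dp_mono {m : ℕ} {lam : ℕ → ℂ} {Q z0 z A B : ℝ} {s : ℂ} (h : Dp m lam Q z0 z A s)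
    (hAB : A ≤ B) : Dp m lam Q z0 z B s := by
  intro j k r h1 h2 h3 h4 h5
  refine (h j k r h1 h2 h3 h4 h5).trans ?_
  have : (0 : ℝ) ≤ (2 : ℝ) ^ (-((r : ℝ) * (s.re - 1 / 2))) := by positivity
  exact mul_le_mul_of_nonneg_right hAB this

lemma qv_diff (m : ℕ) (q : ℕ → ℂ) (p : ℕ) (hp : p ≠ 0) :
    Differentiable ℂ (fun s : ℂ => qv m q ((p : ℂ) ^ (-s))) := by
  have h : Differentiable ℂ (fun s : ℂ => (p : ℂ) ^ (-s)) := by
    intro s
    exact (differentiableAt_id.neg).const_cpow (Or.inl (by exact_mod_cast hp))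
  unfold qv
  exact Differentiable.fun_sum (fun j _ => (h.pow j).const_mul _)

lemma prod_diff (m : ℕ) (q : ℕ → ℕ → ℂ) (S : Finset ℕ) (hS : ∀ p ∈ S, p.Prime) :
    Differentiable ℂ (fun s : ℂ => ∏ p ∈ S, qv m (q p) ((p : ℂ) ^ (-s))) := by
  exact Differentiable.fun_finsetProd (fun p hp => qv_diff m (q p) p (hS p hp).ne_zero)

/-- summability of the majorant -/
lemma summ (m : ℕ) (lam : ℕ → ℂ) (C0 : ℝ) (hlam : ∀ n : ℕ, 1 ≤ n → ‖lam n‖ ≤ C0 * (n : ℝ) ^ m)
    (x : ℝ) (hx : (m : ℝ) + 1 < x) :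
    Summable (fun n : ℕ => if 1 ≤ n then ‖lam n‖ * (n : ℝ) ^ (-x) else 0) := by
  have h1 : Summable (fun n : ℕ => C0 * (n : ℝ) ^ ((m : ℝ) - x)) :=
    (Real.summable_nat_rpow.2 (by linarith)).mul_left C0
  refine Summable.of_nonneg_of_le (fun n => ?_) (fun n => ?_) h1
  · split_ifs <;> positivity
  · split_ifs with h
    · have hn : (0 : ℝ) < n := by exact_mod_cast h
      rw [sub_eq_add_neg, Real.rpow_add hn, Real.rpow_natCast, ← mul_assoc]
      exact mul_le_mul_of_nonneg_right (hlam n h) (by positivity)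
    · have hn : n = 0 := by omega
      have h1' := hlam 1 le_rfl
      have hC0 : 0 ≤ C0 := by
        have : (0 : ℝ) ≤ ‖lam 1‖ := norm_nonneg _
        simp only [Nat.cast_one, one_pow, mul_one] at h1'
        linarith
      positivity

theorem pf_NZR (hPRD : T_PRD) (hEPR : T_EPR) (hTAI : T_TAI) (hHTC : T_HTC) : T_NZR := by
  intro m d C0 hm hd hd2 hC0
  have hm1 : (1 : ℝ) ≤ m := by exact_mod_cast hm
  have hm0 : (0 : ℝ) < m := by linarith
  obtain ⟨cP, hcP, hPRD⟩ := hPRD m (d / 2) C0 hm (by linarith) (by linarith) hC0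
  obtain ⟨CT, hCT, hTAI⟩ := hTAI m C0 hC0
  obtain ⟨w, hw0, hw1, hHTC⟩ := hHTC 1 ((m : ℝ) + 5 - 1 / 2 - d) ((m : ℝ) + 5 - 1 / 2 - d / 2)
    one_pos (by linarith) (by linarith)
  obtain ⟨c, hc0, hcc, hcw⟩ : ∃ c : ℝ, 0 < c ∧ c ≤ cP ∧ 2 * c ≤ w / (8 * m) := by
    refine ⟨min cP (w / (16 * m)), lt_min hcP (by positivity), min_le_left _ _, ?_⟩
    have h := min_le_right cP (w / (16 * m))
    have h2 : w / (16 * m) * 2 = w / (8 * m) := by
      field_simp
      norm_num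
    linarith
  obtain ⟨k0, Q1, hk0, hQ1, hPRD⟩ := hPRD c hc0
  refine ⟨c, k0, 2 * m + 10, max Q1 (max ((4 * CT + 1) ^ (8 * m / w)) (2 ^ (4 * m))), hc0, hk0,
    by linarith, le_max_of_le_left hQ1, ?_⟩
  intro lam q L Q t hQ hE hlam hL hsum hSq hbd
  have hQa : Q1 ≤ Q := (le_max_left _ _).trans hQ
  have hQb : (4 * CT + 1) ^ (8 * m / w) ≤ Q := (le_max_left _ _).trans ((le_max_right _ _).trans hQ)
  have hQc : (2 : ℝ) ^ (4 * m) ≤ Q := (le_max_right _ _).trans ((le_max_right _ _).trans hQ)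
  have hQone : 1 ≤ Q := hQ1.trans hQa
  have hQ0 : 0 < Q := by linarith
  -- the parameter z
  obtain ⟨z, hz⟩ : ∃ z : ℝ, z = Q ^ (1 / (4 * (m : ℝ))) := ⟨_, rfl⟩
  have hz0 : 0 < z := by
    rw [hz]
    positivity
  have hz4 : z ^ (4 * m) = Q := by
    rw [hz, ← Real.rpow_natCast, ← Real.rpow_mul hQ0.le]
    have : 1 / (4 * (m : ℝ)) * ((4 * m : ℕ) : ℝ) = 1 := by
      push_cast
      field_simp
    rw [this, Real.rpow_one]
  have hz2 : 2 ≤ z := by
    by_contra h
    push Not at h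
    have h1 : z ^ (4 * m) < 2 ^ (4 * m) := pow_lt_pow_left₀ h hz0.le (by omega)
    linarith [hz4]
  obtain ⟨Z, hZ⟩ : ∃ Z : ℕ, Z = ⌊z⌋₊ := ⟨_, rfl⟩
  have hZ1 : 1 ≤ Z := by
    rw [hZ]
    exact Nat.le_floor (by push_cast; linarith)
  have hZz : z / 2 ≤ (Z : ℝ) := by
    have := Nat.lt_floor_add_one z
    rw [← hZ] at this
    linarith
  have hZ0 : (0 : ℝ) < Z := by exact_mod_cast hZ1
  -- the large parameter
  have hbig : 4 * CT + 1 ≤ Q ^ (w / (8 * m)) := by
    calc 4 * CT + 1 = ((4 * CT + 1) ^ (8 * m / w)) ^ (w / (8 * m)) := by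
          rw [← Real.rpow_mul (by linarith)]
          have : 8 * (m : ℝ) / w * (w / (8 * m)) = 1 := by
            field_simp
          rw [this, Real.rpow_one]
      _ ≤ Q ^ (w / (8 * m)) := Real.rpow_le_rpow (by positivity) hQb (by positivity)
  have hzbig : 4 * CT ≤ z := by
    have h1 : Q ^ (w / (8 * m)) ≤ Q ^ (1 / (4 * (m : ℝ))) := by
      refine Real.rpow_le_rpow_of_exponent_le hQone ?_
      rw [div_le_div_iff₀ (by positivity) (by positivity)]
      nlinarith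
    rw [hz]
    linarith
  -- the set of primes and the function
  obtain ⟨S, hS⟩ : ∃ S : Finset ℕ, S = (Finset.range (Z + 1)).filter Nat.Prime := ⟨_, rfl⟩
  have hSp : ∀ p ∈ S, p.Prime := by
    intro p hp
    rw [hS, Finset.mem_filter] at hp
    exact hp.2
  obtain ⟨R, hR⟩ : ∃ R : ℂ → ℂ, R = fun s => L s * ∏ p ∈ S, qv m (q p) ((p : ℂ) ^ (-s)) := ⟨_, rfl⟩
  have hRd : Differentiable ℂ R := by
    rw [hR]
    exact hL.mul (prod_diff m q S hSp)
  have hRfar : ∀ s : ℂ, (m : ℝ) + 4 ≤ s.re → ‖R s - 1‖ ≤ CT / Z := by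
    intro s hs
    have h1 := hEPR m lam q s S hE hSp (summ m lam C0 hlam s.re (by linarith))
    have h2 := (hsum s (by linarith)).tsum_eq
    have h3 : R s = ∑' n : ℕ, if 1 ≤ n ∧ ∀ p ∈ S, ¬ p ∣ n then lam n * (n : ℂ) ^ (-s) else 0 := by
      rw [← h1, h2, hR]
      ring
    rw [h3, hS]
    exact hTAI lam hE.one hlam Z hZ1 s hs
  have hlog : ∀ s : ℂ, 1 / 2 + d / 2 ≤ s.re → s.re ≤ 2 * m + 10 → |s.im - t| ≤ 2 * m + 10 →
      ‖R s‖ ≤ Q ^ (2 * c) := by
    intro s h1 h2 h3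
    obtain ⟨h4, h5⟩ := hbd s h1 h2 h3
    have h6 := hPRD lam q Q hQa hE hlam
      (Sq_mono hSq (Real.rpow_le_rpow_of_exponent_le hQone (by linarith))) z hz4.le s h1
      (Dp_mono (by rw [hz]; exact h5) (Real.rpow_le_rpow_of_exponent_le hQone hcc))
    rw [← hZ, ← hS] at h6
    rw [hR]
    simp only [norm_mul]
    calc ‖L s‖ * ‖∏ p ∈ S, qv m (q p) ((p : ℂ) ^ (-s))‖ ≤ Q ^ c * Q ^ c :=
          mul_le_mul h4 h6 (norm_nonneg _) (by positivity)
      _ = Q ^ (2 * c) := by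
          rw [← Real.rpow_add hQ0]
          congr 1
          ring
  -- the three circles
  have hQ2c : 1 ≤ Q ^ (2 * c) := Real.one_le_rpow hQone (by linarith)
  have hM1 : CT / Z ≤ 1 / 2 := by
    rw [div_le_div_iff₀ hZ0 (by norm_num)]
    linarith
  have hM1' : CT / Z ≤ 2 * CT * Q ^ (-(1 / (4 * (m : ℝ)))) := by
    rw [Real.rpow_neg hQ0.le, ← hz, div_le_iff₀ hZ0]
    have h1 : 2 * CT * z⁻¹ * (z / 2) = CT := by
      field_simp
    calc CT = 2 * CT * z⁻¹ * (z / 2) := h1.symm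
      _ ≤ 2 * CT * z⁻¹ * Z := mul_le_mul_of_nonneg_left hZz (by positivity)
  have hfin : (CT / Z) ^ w * (2 * Q ^ (2 * c)) ^ (1 - w) < 1 := by
    have h1 : (CT / Z) ^ w ≤ 2 * CT * Q ^ (-(w / (4 * (m : ℝ)))) := by
      calc (CT / Z) ^ w ≤ (2 * CT * Q ^ (-(1 / (4 * (m : ℝ))))) ^ w :=
            Real.rpow_le_rpow (by positivity) hM1' hw0.le
        _ = (2 * CT) ^ w * Q ^ (-(w / (4 * (m : ℝ)))) := by
            rw [Real.mul_rpow (by positivity) (by positivity), ← Real.rpow_mul hQ0.le]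
            congr 2
            ring
        _ ≤ 2 * CT * Q ^ (-(w / (4 * (m : ℝ)))) := by
            have : (2 * CT) ^ w ≤ 2 * CT := by
              calc (2 * CT) ^ w ≤ (2 * CT) ^ (1 : ℝ) :=
                    Real.rpow_le_rpow_of_exponent_le (by linarith) hw1.le
                _ = 2 * CT := Real.rpow_one _
            gcongr
    have h2 : (2 * Q ^ (2 * c)) ^ (1 - w) ≤ 2 * Q ^ (2 * c) := by
      calc (2 * Q ^ (2 * c)) ^ (1 - w) ≤ (2 * Q ^ (2 * c)) ^ (1 : ℝ) :=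
            Real.rpow_le_rpow_of_exponent_le (by linarith) (by linarith)
        _ = _ := Real.rpow_one _
    have h3 : Q ^ (-(w / (4 * (m : ℝ)))) * Q ^ (2 * c) ≤ (Q ^ (w / (8 * m)))⁻¹ := by
      rw [← Real.rpow_add hQ0, ← Real.rpow_neg hQ0.le]
      refine Real.rpow_le_rpow_of_exponent_le hQone ?_
      have : w / (4 * (m : ℝ)) = 2 * (w / (8 * m)) := by
        field_simp
        norm_num
      linarith
    calc (CT / Z) ^ w * (2 * Q ^ (2 * c)) ^ (1 - w) ≤
        (2 * CT * Q ^ (-(w / (4 * (m : ℝ))))) * (2 * Q ^ (2 * c)) :=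
          mul_le_mul h1 h2 (by positivity) (by positivity)
      _ = 4 * CT * (Q ^ (-(w / (4 * (m : ℝ)))) * Q ^ (2 * c)) := by ring
      _ ≤ 4 * CT * (Q ^ (w / (8 * m)))⁻¹ := mul_le_mul_of_nonneg_left h3 (by positivity)
      _ < 1 := by
          rw [← div_eq_mul_inv, div_lt_one (by positivity)]
          linarith
  have hDne : ∀ s : ℂ, ‖R s - 1‖ < 1 → L s ≠ 0 := by
    intro s h h0
    rw [hR] at h
    simp only [h0, zero_mul, zero_sub, norm_neg, norm_one] at h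
    exact lt_irrefl _ h
  intro s hs hst
  rcases le_or_gt s.re (2 * m + 9.5 - d) with h | h
  · -- inside the circle
    refine hDne s (lt_of_le_of_lt ?_ hfin)
    refine hHTC (fun s => R s - 1) (((m : ℝ) + 5 : ℝ) + t * Complex.I) (CT / Z) (2 * Q ^ (2 * c))
      (hRd.sub_const 1) (by positivity) (by linarith) ?_ ?_ s ?_
    · intro u hu
      refine hRfar u ?_
      have h1 : |(u - ((((m : ℝ) + 5 : ℝ) : ℂ) + t * Complex.I)).re| ≤ 1 :=
        (Complex.abs_re_le_norm _).trans hu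
      simp only [Complex.sub_re, Complex.add_re, Complex.ofReal_re, Complex.mul_re, Complex.I_re,
        Complex.ofReal_im, Complex.I_im, mul_zero, mul_one, sub_zero, add_zero, zero_mul] at h1
      rw [abs_le] at h1
      linarith [h1.1]
    · intro u hu
      have h1 : |(u - ((((m : ℝ) + 5 : ℝ) : ℂ) + t * Complex.I)).re| ≤ (m : ℝ) + 5 - 1 / 2 - d / 2 :=
        (Complex.abs_re_le_norm _).trans hu
      have h2 : |(u - ((((m : ℝ) + 5 : ℝ) : ℂ) + t * Complex.I)).im| ≤ (m : ℝ) + 5 - 1 / 2 - d / 2 :=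
        (Complex.abs_im_le_norm _).trans hu
      simp only [Complex.sub_re, Complex.add_re, Complex.ofReal_re, Complex.mul_re, Complex.I_re,
        Complex.ofReal_im, Complex.I_im, mul_zero, mul_one, sub_zero, add_zero, zero_mul] at h1
      simp only [Complex.sub_im, Complex.add_im, Complex.ofReal_re, Complex.mul_im, Complex.I_re,
        Complex.ofReal_im, Complex.I_im, mul_zero, mul_one, add_zero, zero_add] at h2
      rw [abs_le] at h1
      have h3 := hlog u (by linarith [h1.1]) (by linarith [h1.2]) (h2.trans (by linarith))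
      calc ‖R u - 1‖ ≤ ‖R u‖ + ‖(1 : ℂ)‖ := norm_sub_le _ _
        _ ≤ Q ^ (2 * c) + 1 := by
            rw [norm_one]
            linarith
        _ ≤ 2 * Q ^ (2 * c) := by linarith
    · have h1 : s - ((((m : ℝ) + 5 : ℝ) : ℂ) + t * Complex.I) = ((s.re - ((m : ℝ) + 5) : ℝ) : ℂ) := by
        apply Complex.ext
        · simp
        · simp [hst]
      rw [h1, Complex.norm_real, Real.norm_eq_abs, abs_le]
      constructor <;> linarith
  · -- far to the right
    refine hDne s (lt_of_le_of_lt (hRfar s (by linarith)) ?_)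
    linarith

end Pool.Agent.H57.ZF
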